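import Mathlib

/-! Generic lifting lemma for modules over a Banach algebra. -/

namespace Pool.Agent.H.MP_e07d6f_an

open Filter Topology
open scoped ENNReal

noncomputable section

/-- uniformly bounded family of operators as one operator into the sup space -/
def toInf {X W ι : Type} [NormedAddCommGroup X] [NormedSpace ℂ X] [NormedAddCommGroup W]
    [NormedSpace ℂ W] (f : ι → X →L[ℂ] W) (C : ℝ) (hC : 0 ≤ C) (h : ∀ i x, ‖f i x‖ ≤ C * ‖x‖) :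
    X →L[ℂ] lp (fun _ : ι => W) ∞ :=
  LinearMap.mkContinuous
    { toFun := fun x => ⟨fun i => f i x, memℓp_infty ⟨C * ‖x‖, by
        rintro _ ⟨i, rfl⟩; exact h i x⟩⟩
      map_add' := fun x y => by ext i; simp
      map_smul' := fun c x => by ext i; simp } C
    (fun x => lp.norm_le_of_forall_le (by positivity) (fun i => h i x))

@[simp] lemma toInf_apply {X W ι : Type} [NormedAddCommGroup X] [NormedSpace ℂ X]
    [NormedAddCommGroup W] [NormedSpace ℂ W] (f : ι → X →L[ℂ] W) (C : ℝ) (hC : 0 ≤ C)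
    (h : ∀ i x, ‖f i x‖ ≤ C * ‖x‖) (x : X) (i : ι) : toInf f C hC h x i = f i x := rfl

/-- the lifting property of the algebra over itself -/
def Lift {A : Type} [NormedAddCommGroup A] [NormedSpace ℂ A] (m : A →ₗ[ℂ] A →ₗ[ℂ] A) : Prop :=
  ∀ (X : Type) [NormedAddCommGroup X] [NormedSpace ℂ X] [CompleteSpace X]
    (aX : A →ₗ[ℂ] X →ₗ[ℂ] X), (∀ a x, ‖aX a x‖ ≤ ‖a‖ * ‖x‖) →
    (∀ a b x, aX (m a b) x = aX a (aX b x)) → ∀ σ : X →L[ℂ] A, (∀ a x, σ (aX a x) = m a (σ x)) →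
    (∃ ρ : A →L[ℂ] X, ∀ y, σ (ρ y) = y) →
    ∃ ψ : A →L[ℂ] X, (∀ a p, ψ (m a p) = aX a (ψ p)) ∧ ∀ p, σ (ψ p) = p

section gen
variable {A V I Γ : Type} [NormedAddCommGroup A] [NormedSpace ℂ A]
  [NormedAddCommGroup V] [NormedSpace ℂ V]

/-- a good decomposition of the identity -/
structure Good (m : A →ₗ[ℂ] A →ₗ[ℂ] A) (θ : I → A →L[ℂ] V) (l : Γ → A →L[ℂ] A) (C : ℝ) :
    Prop where
  nonneg : 0 ≤ C
  one : ∀ t T a (G : Finset I), ∑ n ∈ G, ‖θ n (m a (l t T))‖ ≤ C * ‖a‖ * ‖T‖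
  two : ∀ (F : Finset Γ) T, ‖∑ t ∈ F, l t T‖ ≤ C * ‖T‖
  three : ∀ T, HasSum (fun t => l t T) T

abbrev YY (A V I Γ : Type) [NormedAddCommGroup A] [NormedSpace ℂ A]
  [NormedAddCommGroup V] [NormedSpace ℂ V] : Type :=
  lp (fun _ : Γ => A →L[ℂ] lp (fun _ : I => V) 1) ∞ × lp (fun _ : Finset Γ => A) ∞ × A

def ZZ (Γ : Type) (m : A →ₗ[ℂ] A →ₗ[ℂ] A) (θ : I → A →L[ℂ] V) : Submodule ℂ (YY A V I Γ) where
  carrier := {y | (∀ F : Finset Γ, y.2.1 F = ∑ t ∈ F, y.2.1 {t}) ∧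
    (∀ t a n, y.1 t a n = θ n (m a (y.2.1 {t}))) ∧ Tendsto (fun F => y.2.1 F) atTop (𝓝 y.2.2)}
  add_mem' := by
    rintro x y ⟨h1, h2, h3⟩ ⟨k1, k2, k3⟩
    refine ⟨fun F => ?_, fun t a n => ?_, ?_⟩
    · simp only [Prod.snd_add, Prod.fst_add, lp.coeFn_add, Pi.add_apply, Finset.sum_add_distrib]
      rw [← h1, ← k1]
    · simp only [Prod.snd_add, Prod.fst_add, lp.coeFn_add, Pi.add_apply, map_add, add_apply]
      rw [h2, k2]
    · simpa using h3.add k3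
  zero_mem' := by
    refine ⟨fun F => ?_, fun t a n => ?_, ?_⟩
    · simp
    · simp
    · simp
  smul_mem' := by
    rintro c x ⟨h1, h2, h3⟩
    refine ⟨fun F => ?_, fun t a n => ?_, ?_⟩
    · simp only [Prod.smul_snd, Prod.smul_fst, lp.coeFn_smul, Pi.smul_apply, ← Finset.smul_sum]
      rw [← h1]
    · simp only [Prod.smul_snd, Prod.smul_fst, lp.coeFn_smul, Pi.smul_apply, map_smul, smul_apply]
      rw [h2]
    · simpa using h3.const_smul c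

lemma cont_eval {ι W : Type} [NormedAddCommGroup W] [NormedSpace ℂ W] (p : ℝ≥0∞) [Fact (1 ≤ p)]
    (i : ι) : Continuous (fun x : lp (fun _ : ι => W) p => x i) :=
  (lp.lipschitzWith_one_eval p i).continuous

lemma ZZ_closed (m : A →ₗ[ℂ] A →ₗ[ℂ] A) (hm : ∀ a b, ‖m a b‖ ≤ ‖a‖ * ‖b‖) (θ : I → A →L[ℂ] V) :
    IsClosed (ZZ Γ m θ : Set (YY A V I Γ)) := by
  have hc : ∀ a, Continuous (m a) := fun a => ((m a).mkContinuous ‖a‖ (hm a)).continuous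
  have e1 : ∀ F : Finset Γ, Continuous (fun y : YY A V I Γ => y.2.1 F) := fun F =>
    (cont_eval ∞ F).comp (continuous_fst.comp continuous_snd)
  have h1 : IsClosed {y : YY A V I Γ | ∀ F : Finset Γ, y.2.1 F = ∑ t ∈ F, y.2.1 {t}} := by
    rw [Set.ofPred_forall]
    exact isClosed_iInter fun F => isClosed_eq (e1 F) (continuous_finsetSum _ fun t _ => e1 {t})
  have h2 : IsClosed {y : YY A V I Γ | ∀ t a n, y.1 t a n = θ n (m a (y.2.1 {t}))} := by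
    simp only [Set.ofPred_forall]
    refine isClosed_iInter fun t => isClosed_iInter fun a => isClosed_iInter fun n =>
      isClosed_eq ?_ ((θ n).continuous.comp ((hc a).comp (e1 {t})))
    exact (cont_eval 1 n).comp ((ContinuousLinearMap.apply ℂ _ a).continuous.comp
      ((cont_eval ∞ t).comp continuous_fst))
  have h3 : IsClosed {y : YY A V I Γ | Tendsto (fun F => y.2.1 F) atTop (𝓝 y.2.2)} := by
    refine isClosed_of_closure_subset fun y hy => ?_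
    rw [Set.mem_ofPred_eq, Metric.tendsto_nhds]
    intro ε hε
    obtain ⟨z, hz, hd⟩ := Metric.mem_closure_iff.1 hy (ε / 3) (by positivity)
    have hz' := Metric.tendsto_nhds.1 hz (ε / 3) (by positivity)
    filter_upwards [hz'] with F hF
    have a1 : dist (y.2.1 F) (z.2.1 F) ≤ dist y z := by
      have := (lp.lipschitzWith_one_eval (E := fun _ : Finset Γ => A) ∞ F).dist_le_mul y.2.1 z.2.1
      simp only [NNReal.coe_one, one_mul] at this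
      exact this.trans ((le_max_left _ _).trans (le_max_right _ _))
    have a2 : dist z.2.2 y.2.2 ≤ dist y z := by
      rw [dist_comm]; exact (le_max_right _ _).trans (le_max_right _ _)
    have := dist_triangle4 (y.2.1 F) (z.2.1 F) z.2.2 y.2.2
    linarith
  exact h1.inter (h2.inter h3)

/-- the action on the ambient space -/
def actY (m : A →ₗ[ℂ] A →ₗ[ℂ] A) (hm : ∀ a b, ‖m a b‖ ≤ ‖a‖ * ‖b‖) (S : A) (y : YY A V I Γ) :
    YY A V I Γ :=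
  (⟨fun t => (y.1 t).comp ((m.flip S).mkContinuous ‖S‖ (fun a => by
      rw [mul_comm]; exact hm a S)), memℓp_infty ⟨‖y.1‖ * ‖S‖, by
      rintro _ ⟨t, rfl⟩
      refine (ContinuousLinearMap.opNorm_comp_le _ _).trans ?_
      exact mul_le_mul (lp.norm_apply_le_norm ENNReal.top_ne_zero _ t)
        (LinearMap.mkContinuous_norm_le _ (norm_nonneg _) _) (norm_nonneg _) (norm_nonneg _)⟩⟩,
   ⟨fun F => m S (y.2.1 F), memℓp_infty ⟨‖S‖ * ‖y.2.1‖, by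
      rintro _ ⟨F, rfl⟩
      exact (hm _ _).trans (mul_le_mul_of_nonneg_left
        (lp.norm_apply_le_norm ENNReal.top_ne_zero _ F) (norm_nonneg _))⟩⟩, m S y.2.2)

lemma actY_1 (m : A →ₗ[ℂ] A →ₗ[ℂ] A) (hm : ∀ a b, ‖m a b‖ ≤ ‖a‖ * ‖b‖) (S : A) (y : YY A V I Γ)
    (t : Γ) (a : A) : (actY m hm S y).1 t a = y.1 t (m a S) := rfl

lemma actY_2 (m : A →ₗ[ℂ] A →ₗ[ℂ] A) (hm : ∀ a b, ‖m a b‖ ≤ ‖a‖ * ‖b‖) (S : A) (y : YY A V I Γ)
    (F : Finset Γ) : (actY m hm S y).2.1 F = m S (y.2.1 F) := rfl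

lemma actY_3 (m : A →ₗ[ℂ] A →ₗ[ℂ] A) (hm : ∀ a b, ‖m a b‖ ≤ ‖a‖ * ‖b‖) (S : A) (y : YY A V I Γ) :
    (actY m hm S y).2.2 = m S y.2.2 := rfl

lemma YY_ext {x y : YY A V I Γ} (h1 : ∀ t a, x.1 t a = y.1 t a) (h2 : ∀ F, x.2.1 F = y.2.1 F)
    (h3 : x.2.2 = y.2.2) : x = y :=
  Prod.ext (lp.ext (funext fun t => ContinuousLinearMap.ext (h1 t)))
    (Prod.ext (lp.ext (funext h2)) h3)

lemma actY_norm (m : A →ₗ[ℂ] A →ₗ[ℂ] A) (hm : ∀ a b, ‖m a b‖ ≤ ‖a‖ * ‖b‖) (S : A)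
    (y : YY A V I Γ) : ‖actY m hm S y‖ ≤ ‖S‖ * ‖y‖ := by
  have n1 : ‖y.1‖ ≤ ‖y‖ := norm_fst_le y
  have n2 : ‖y.2.1‖ ≤ ‖y‖ := (norm_fst_le y.2).trans (norm_snd_le y)
  have n3 : ‖y.2.2‖ ≤ ‖y‖ := (norm_snd_le y.2).trans (norm_snd_le y)
  have hS := norm_nonneg S
  refine max_le ?_ (max_le ?_ ?_)
  · refine lp.norm_le_of_forall_le (by positivity) fun t => ?_
    refine ContinuousLinearMap.opNorm_le_bound _ (by positivity) fun a => ?_
    rw [actY_1]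
    calc ‖y.1 t (m a S)‖ ≤ ‖y.1 t‖ * ‖m a S‖ := ContinuousLinearMap.le_opNorm _ _
      _ ≤ ‖y‖ * (‖a‖ * ‖S‖) := mul_le_mul
          ((lp.norm_apply_le_norm ENNReal.top_ne_zero _ t).trans n1) (hm _ _) (norm_nonneg _)
          (norm_nonneg _)
      _ = ‖S‖ * ‖y‖ * ‖a‖ := by ring
  · refine lp.norm_le_of_forall_le (by positivity) fun F => ?_
    rw [actY_2]
    exact (hm _ _).trans (mul_le_mul_of_nonneg_left
      ((lp.norm_apply_le_norm ENNReal.top_ne_zero _ F).trans n2) hS)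
  · exact (hm _ _).trans (mul_le_mul_of_nonneg_left n3 hS)

lemma actY_mem (m : A →ₗ[ℂ] A →ₗ[ℂ] A) (hm : ∀ a b, ‖m a b‖ ≤ ‖a‖ * ‖b‖)
    (ha : ∀ a b c, m (m a b) c = m a (m b c)) (θ : I → A →L[ℂ] V) (S : A) (y : YY A V I Γ)
    (hy : y ∈ ZZ Γ m θ) : actY m hm S y ∈ ZZ Γ m θ := by
  obtain ⟨h1, h2, h3⟩ := hy
  refine ⟨fun F => ?_, fun t a n => ?_, ?_⟩
  · simp only [actY_2]
    rw [h1, map_sum]
  · rw [actY_1, actY_2, h2, ha]
  · simp only [actY_2, actY_3]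
    exact (((m S).mkContinuous ‖S‖ (hm S)).continuous.tendsto _).comp h3

def actZ (m : A →ₗ[ℂ] A →ₗ[ℂ] A) (hm : ∀ a b, ‖m a b‖ ≤ ‖a‖ * ‖b‖)
    (ha : ∀ a b c, m (m a b) c = m a (m b c)) (θ : I → A →L[ℂ] V) :
    A →ₗ[ℂ] ZZ Γ m θ →ₗ[ℂ] ZZ Γ m θ :=
  LinearMap.mk₂ ℂ (fun S y => ⟨actY m hm S y.1, actY_mem m hm ha θ S y.1 y.2⟩)
    (fun S S' y => Subtype.ext (YY_ext
      (fun t a => by simp [actY_1]) (fun F => by simp [actY_2]) (by simp [actY_3])))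
    (fun c S y => Subtype.ext (YY_ext
      (fun t a => by simp [actY_1]) (fun F => by simp [actY_2]) (by simp [actY_3])))
    (fun S y y' => Subtype.ext (YY_ext
      (fun t a => by simp [actY_1]) (fun F => by simp [actY_2]) (by simp [actY_3])))
    (fun c S y => Subtype.ext (YY_ext
      (fun t a => by simp [actY_1]) (fun F => by simp [actY_2]) (by simp [actY_3])))

lemma actZ_coe (m : A →ₗ[ℂ] A →ₗ[ℂ] A) (hm : ∀ a b, ‖m a b‖ ≤ ‖a‖ * ‖b‖)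
    (ha : ∀ a b c, m (m a b) c = m a (m b c)) (θ : I → A →L[ℂ] V) (S : A) (y : ZZ Γ m θ) :
    (actZ m hm ha θ S y).1 = actY m hm S y.1 := rfl

/-- the summing part of the right inverse -/
def hat {m : A →ₗ[ℂ] A →ₗ[ℂ] A} {θ : I → A →L[ℂ] V} {l : Γ → A →L[ℂ] A} {C : ℝ}
    (g : Good m θ l C) (t : Γ) : A →L[ℂ] A →L[ℂ] lp (fun _ : I => V) 1 :=
  LinearMap.mkContinuous₂ (LinearMap.mk₂ ℂ
    (fun T a => (⟨fun n => θ n (m a (l t T)), memℓp_gen' (C := C * ‖a‖ * ‖T‖) (fun s => by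
      simpa using g.one t T a s)⟩ : lp (fun _ : I => V) 1))
    (fun T T' a => by ext n; simp) (fun c T a => by ext n; simp)
    (fun T a a' => by ext n; simp) (fun c T a => by ext n; simp)) C
    (fun T a => lp.norm_le_of_forall_sum_le (by simp)
      (by have := g.nonneg; positivity) (fun s => by
        have := g.one t T a s
        simp only [ENNReal.toReal_one, Real.rpow_one]
        refine le_trans this (le_of_eq (by ring))))

lemma hat_apply {m : A →ₗ[ℂ] A →ₗ[ℂ] A} {θ : I → A →L[ℂ] V} {l : Γ → A →L[ℂ] A} {C : ℝ}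
    (g : Good m θ l C) (t : Γ) (T a : A) (n : I) : hat g t T a n = θ n (m a (l t T)) := rfl

lemma hat_norm {m : A →ₗ[ℂ] A →ₗ[ℂ] A} {θ : I → A →L[ℂ] V} {l : Γ → A →L[ℂ] A} {C : ℝ}
    (g : Good m θ l C) (t : Γ) (T : A) : ‖hat g t T‖ ≤ C * ‖T‖ := by
  have := g.nonneg
  refine ContinuousLinearMap.opNorm_le_bound _ (by positivity) fun a => ?_
  refine lp.norm_le_of_forall_sum_le (by simp) (by positivity) (fun s => ?_)
  have := g.one t T a s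
  simp only [ENNReal.toReal_one, Real.rpow_one, hat_apply]
  refine le_trans this (le_of_eq (by ring))

def sig (Γ : Type) (m : A →ₗ[ℂ] A →ₗ[ℂ] A) (θ : I → A →L[ℂ] V) : ZZ Γ m θ →L[ℂ] A :=
  (ContinuousLinearMap.snd ℂ _ _).comp ((ContinuousLinearMap.snd ℂ _ _).comp (ZZ Γ m θ).subtypeL)

lemma sig_apply (m : A →ₗ[ℂ] A →ₗ[ℂ] A) (θ : I → A →L[ℂ] V) (y : ZZ Γ m θ) :
    sig Γ m θ y = y.1.2.2 := rfl

def ev (m : A →ₗ[ℂ] A →ₗ[ℂ] A) (θ : I → A →L[ℂ] V) (F : Finset Γ) : ZZ Γ m θ →L[ℂ] A :=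
  (lp.evalCLM ℂ (fun _ : Finset Γ => A) ∞ F).comp
    ((ContinuousLinearMap.fst ℂ _ _).comp
      ((ContinuousLinearMap.snd ℂ _ _).comp (ZZ Γ m θ).subtypeL))

lemma ev_apply (m : A →ₗ[ℂ] A →ₗ[ℂ] A) (θ : I → A →L[ℂ] V) (F : Finset Γ) (y : ZZ Γ m θ) :
    ev m θ F y = y.1.2.1 F := rfl

def rho0 {m : A →ₗ[ℂ] A →ₗ[ℂ] A} {θ : I → A →L[ℂ] V} {l : Γ → A →L[ℂ] A} {C : ℝ}
    (g : Good m θ l C) : A →L[ℂ] YY A V I Γ :=
  (toInf (hat g) C g.nonneg (hat_norm g)).prod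
    ((toInf (fun F : Finset Γ => ∑ t ∈ F, l t) C g.nonneg (fun F T => by
      simpa using g.two F T)).prod (ContinuousLinearMap.id ℂ A))

lemma rho0_mem {m : A →ₗ[ℂ] A →ₗ[ℂ] A} {θ : I → A →L[ℂ] V} {l : Γ → A →L[ℂ] A} {C : ℝ}
    (g : Good m θ l C) (T : A) : rho0 g T ∈ ZZ Γ m θ := by
  have e1 : ∀ F : Finset Γ, (rho0 g T).2.1 F = ∑ t ∈ F, l t T := fun F => by
    show (∑ t ∈ F, l t) T = _
    simp
  have e2 : ∀ t a n, (rho0 g T).1 t a n = θ n (m a (l t T)) := fun t a n => rfl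
  have e3 : (rho0 g T).2.2 = T := rfl
  refine ⟨fun F => ?_, fun t a n => ?_, ?_⟩
  · simp only [e1, Finset.sum_singleton]
  · rw [e2, e1, Finset.sum_singleton]
  · simp only [e1, e3]
    exact g.three T

lemma good_of_lift {m : A →ₗ[ℂ] A →ₗ[ℂ] A} {θ : I → A →L[ℂ] V} (ψ : A →L[ℂ] ZZ Γ m θ)
    (hσ : ∀ p, sig Γ m θ (ψ p) = p) : Good m θ (fun t => (ev m θ {t}).comp ψ) ‖ψ‖ := by
  have n0 : ∀ T, ‖(ψ T).1‖ ≤ ‖ψ‖ * ‖T‖ := fun T => ψ.le_opNorm T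
  refine ⟨ψ.opNorm_nonneg, fun t T a G => ?_, fun F T => ?_, fun T => ?_⟩
  · have e : ∀ n, θ n (m a (((ev m θ {t}).comp ψ) T)) = (ψ T).1.1 t a n :=
      fun n => ((ψ T).2.2.1 t a n).symm
    simp only [e]
    have h1 := lp.sum_rpow_le_norm_rpow (p := 1) (by simp) ((ψ T).1.1 t a) G
    simp only [ENNReal.toReal_one, Real.rpow_one] at h1
    refine h1.trans ((ContinuousLinearMap.le_opNorm _ _).trans ?_)
    have h2 : ‖(ψ T).1.1 t‖ ≤ ‖ψ‖ * ‖T‖ :=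
      (lp.norm_apply_le_norm ENNReal.top_ne_zero _ t).trans ((norm_fst_le (ψ T).1).trans (n0 T))
    calc _ ≤ ‖ψ‖ * ‖T‖ * ‖a‖ := mul_le_mul_of_nonneg_right h2 (norm_nonneg _)
      _ = _ := by ring
  · have e : ∑ t ∈ F, ((ev m θ {t}).comp ψ) T = (ψ T).1.2.1 F := ((ψ T).2.1 F).symm
    rw [e]
    exact (lp.norm_apply_le_norm ENNReal.top_ne_zero _ F).trans
      ((norm_fst_le (ψ T).1.2).trans ((norm_snd_le (ψ T).1).trans (n0 T)))
  · have h3 := (ψ T).2.2.2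
    have h4 : (ψ T).1.2.2 = T := hσ T
    rw [h4] at h3
    exact h3.congr fun F => (ψ T).2.1 F

theorem gen [CompleteSpace A] [CompleteSpace V] (m : A →ₗ[ℂ] A →ₗ[ℂ] A)
    (hm : ∀ a b, ‖m a b‖ ≤ ‖a‖ * ‖b‖) (ha : ∀ a b c, m (m a b) c = m a (m b c))
    (θ : I → A →L[ℂ] V) (l : Γ → A →L[ℂ] A) (C : ℝ) (g : Good m θ l C) (hL : Lift m) :
    ∃ (ψ : Γ → A →L[ℂ] A) (D : ℝ), Good m θ ψ D ∧ ∀ t a p, ψ t (m a p) = m a (ψ t p) := by
  have : CompleteSpace (ZZ Γ m θ) := (ZZ_closed m hm θ).completeSpace_coe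
  obtain ⟨ψ, hψ, hσ⟩ := hL (ZZ Γ m θ) (actZ m hm ha θ) (fun a x => actY_norm m hm a x.1)
    (fun a b x => Subtype.ext (YY_ext
      (fun t c => by simp only [actZ_coe, actY_1, ha])
      (fun F => by simp only [actZ_coe, actY_2, ha]) (by simp only [actZ_coe, actY_3, ha])))
    (sig Γ m θ) (fun a x => rfl) ⟨(rho0 g).codRestrict _ (rho0_mem g), fun y => rfl⟩
  refine ⟨_, _, good_of_lift ψ hσ, fun t a p => ?_⟩
  show ev m θ {t} (ψ (m a p)) = m a (ev m θ {t} (ψ p))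
  rw [hψ]
  rfl

end gen

end

end Pool.Agent.H.MP_e07d6f_an
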