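import Mathlib
import Pool.Agent.H.MP_e07d6f_an.A

/-! Rank one calculus and the almost disjoint family argument. -/

namespace Pool.Agent.H.MP_e07d6f_an

open Filter Topology
open scoped ENNReal

noncomputable section

/-- all combinations with coefficients in the unit disc have norm at most `M` -/
def WB {J V : Type} [NormedAddCommGroup V] [NormedSpace ℂ V] (H : Finset J) (w : J → V) (M : ℝ) :
    Prop := ∀ c : J → ℂ, (∀ j, ‖c j‖ ≤ 1) → ‖∑ j ∈ H, c j • w j‖ ≤ M

lemma exists_phase (z : ℂ) : ∃ c : ℂ, ‖c‖ ≤ 1 ∧ c * z = (‖z‖ : ℂ) := by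
  by_cases hz : z = 0
  · exact ⟨0, by simp, by simp [hz]⟩
  · have : (‖z‖ : ℂ) ≠ 0 := by simpa using hz
    refine ⟨(‖z‖ : ℂ) / z, by simp [hz], by field_simp⟩

lemma sum_norm_le_of_WB {J V : Type} [NormedAddCommGroup V] [NormedSpace ℂ V] (H : Finset J)
    (w : J → V) (φ : V →ₗ[ℂ] ℂ) (M : ℝ)
    (h : ∀ c : J → ℂ, (∀ j, ‖c j‖ ≤ 1) → ‖φ (∑ j ∈ H, c j • w j)‖ ≤ M) :
    ∑ j ∈ H, ‖φ (w j)‖ ≤ M := by
  choose c hc1 hc2 using fun j => exists_phase (φ (w j))
  have := h c hc1
  rw [map_sum] at this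
  simp only [map_smul, smul_eq_mul, hc2] at this
  rw [← Complex.ofReal_sum, Complex.norm_real, Real.norm_eq_abs] at this
  exact (le_abs_self _).trans this

lemma countable_of_sum_le {J : Type} (w : J → ℝ) (h0 : ∀ j, 0 ≤ w j) (C : ℝ)
    (h : ∀ H : Finset J, ∑ j ∈ H, w j ≤ C) : {j | w j ≠ 0}.Countable :=
  (summable_of_sum_le h0 h).countable_support

theorem rank {A V I Γ J : Type} [NormedAddCommGroup A] [NormedSpace ℂ A]
    [NormedAddCommGroup V] [NormedSpace ℂ V] [Infinite I] (m : A →ₗ[ℂ] A →ₗ[ℂ] A)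
    (θ : I → A →L[ℂ] V) (ψ : Γ → A →L[ℂ] A) (D : ℝ) (g : Good m θ ψ D)
    (hψ : ∀ t a p, ψ t (m a p) = m a (ψ t p)) (κ : I → V →L[ℂ] A) (u : I → I → A)
    (hu : ∀ n k b, m (u n k) b = κ n (θ k b)) (h1 : ∀ n v, θ n (κ n v) = v)
    (h2 : ∀ n k v, n ≠ k → θ k (κ n v) = 0) (hu1 : ∀ G : Finset I, ‖∑ n ∈ G, u n n‖ ≤ 1)
    (hκ : ∀ (G : Finset I) (v : I → V), WB G v 1 → ‖∑ n ∈ G, κ n (v n)‖ ≤ 1) :
    ∃ (R : Γ → V →L[ℂ] V) (C : ℝ),
      (∀ t (H : Finset J) (w : J → V), WB H w 1 → ∑ j ∈ H, ‖R t (w j)‖ ≤ C) ∧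
      (∀ (F : Finset Γ) v, ‖∑ t ∈ F, R t v‖ ≤ C * ‖v‖) ∧ ∀ v, HasSum (fun t => R t v) v := by
  classical
  obtain ⟨i0⟩ : Nonempty I := inferInstance
  let R : Γ → V →L[ℂ] V := fun t => (θ i0).comp ((ψ t).comp (κ i0))
  have hR : ∀ t n v, ψ t (κ n v) = κ n (R t v) := by
    intro t n v
    have : κ n v = m (u n i0) (κ i0 v) := by rw [hu, h1]
    rw [this, hψ, hu]
    rfl
  have hD := g.nonneg
  have key : ∀ t (G : Finset I) (v : I → V), WB G v 1 → ∑ n ∈ G, ‖R t (v n)‖ ≤ D := by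
    intro t G v hv
    have h := g.one t (∑ n ∈ G, κ n (v n)) (∑ n ∈ G, u n n) G
    have e1 : ∀ (x : I → V) k, k ∈ G → θ k (∑ n ∈ G, κ n (x n)) = x k := by
      intro x k hk
      rw [map_sum, Finset.sum_eq_single k (fun n _ hn => h2 n k _ hn) (fun h => absurd hk h), h1]
    have e2 : ψ t (∑ n ∈ G, κ n (v n)) = ∑ n ∈ G, κ n (R t (v n)) := by
      rw [map_sum]; simp only [hR]
    have e3 : m (∑ n ∈ G, u n n) (∑ n ∈ G, κ n (R t (v n))) = ∑ n ∈ G, κ n (R t (v n)) := by
      rw [map_sum m, LinearMap.sum_apply]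
      refine Finset.sum_congr rfl fun k hk => ?_
      rw [hu, e1 _ k hk]
    rw [e2, e3, Finset.sum_congr rfl (fun k hk => by rw [e1 _ k hk])] at h
    refine h.trans ?_
    calc D * ‖∑ n ∈ G, u n n‖ * ‖∑ n ∈ G, κ n (v n)‖ ≤ D * 1 * 1 := by
          gcongr
          · exact hu1 G
          · exact hκ G v hv
      _ = D := by ring
  refine ⟨R, max D (‖θ i0‖ * D * ‖κ i0‖), fun t H w hw => ?_, fun F v => ?_, fun v => ?_⟩
  · refine le_trans ?_ (le_max_left _ _)
    rcases H.eq_empty_or_nonempty with rfl | ⟨j0, hj0⟩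
    · simpa using hD
    have : Nonempty J := ⟨j0⟩
    let ι : J → I := fun j =>
      Infinite.natEmbedding I (if h : j ∈ H then (H.equivFin ⟨j, h⟩).val else 0)
    have hι : Set.InjOn ι H := by
      intro j hj j' hj' e
      have hj1 : j ∈ H := hj
      have hj2 : j' ∈ H := hj'
      have := (Infinite.natEmbedding I).injective e
      simp only [hj1, hj2, dite_true] at this
      have := H.equivFin.injective (Fin.ext this)
      exact congrArg Subtype.val this
    have hinv : ∀ j ∈ H, Function.invFunOn ι H (ι j) = j := fun j hj =>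
      hι.leftInvOn_invFunOn hj
    have := key t (H.image ι) (fun n => w (Function.invFunOn ι H n)) (by
      intro c hc
      rw [Finset.sum_image hι]
      refine le_trans (le_of_eq ?_) (hw (fun j => c (ι j)) (fun j => hc _))
      congr 1
      exact Finset.sum_congr rfl (fun j hj => by simp only [hinv j hj]))
    rwa [Finset.sum_image hι, Finset.sum_congr rfl (fun j hj => by rw [hinv j hj])] at this
  · have e : ∑ t ∈ F, R t v = θ i0 (∑ t ∈ F, ψ t (κ i0 v)) := by rw [map_sum]; rfl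
    rw [e]
    calc ‖θ i0 (∑ t ∈ F, ψ t (κ i0 v))‖ ≤ ‖θ i0‖ * (D * (‖κ i0‖ * ‖v‖)) := by
          refine ((θ i0).le_opNorm _).trans ?_
          gcongr
          refine (g.two F _).trans ?_
          gcongr
          exact (κ i0).le_opNorm v
      _ = ‖θ i0‖ * D * ‖κ i0‖ * ‖v‖ := by ring
      _ ≤ _ := by gcongr; exact le_max_right _ _
  · have := (θ i0).hasSum (g.three (κ i0 v))
    rwa [h1] at this

theorem core {V Γ J I : Type} [NormedAddCommGroup V] [NormedSpace ℂ V] [CompleteSpace V]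
    [Countable I] [Uncountable J] (R : Γ → V →L[ℂ] V) (C : ℝ)
    (h1 : ∀ t (H : Finset J) (w : J → V), WB H w 1 → ∑ j ∈ H, ‖R t (w j)‖ ≤ C)
    (h2 : ∀ (F : Finset Γ) v, ‖∑ t ∈ F, R t v‖ ≤ C * ‖v‖) (h3 : ∀ v, HasSum (fun t => R t v) v)
    (d : I → V) (a : J → ℕ → I) (g : J → ℕ → V) (hg : ∀ j k, g j k = d (a j k) + g j (k + 1))
    (hD : ∀ H : Finset J, ∃ k, WB H (fun j => g j k) 1)
    (φ : I → V →L[ℂ] ℂ) (hφ : ∀ n v, ‖φ n v‖ ≤ ‖v‖) (hsep : ∀ v, (∀ n, φ n v = 0) → v = 0)
    (hs : ∀ j j', j ≠ j' → 1 ≤ ‖g j 0 - g j' 0‖) : False := by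
  classical
  have hC : 0 ≤ C := by
    by_contra hneg
    obtain ⟨j, j', hj⟩ := exists_pair_ne J
    have := h2 ∅ (g j 0 - g j' 0)
    have h4 := hs j j' hj
    simp only [Finset.sum_empty, norm_zero] at this
    nlinarith [not_le.1 hneg]
  let T0 : Set Γ := ⋃ n, Function.support fun t => R t (d n)
  have hT0 : T0.Countable := Set.countable_iUnion fun n => (h3 (d n)).summable.countable_support
  have hT0' : ∀ t, t ∉ T0 → ∀ n, R t (d n) = 0 := by
    intro t ht n
    by_contra h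
    exact ht (Set.mem_iUnion.2 ⟨n, h⟩)
  have : Countable T0 := hT0.to_subtype
  let S : Submodule ℂ V := Submodule.span ℂ (Set.range fun p : T0 × I => R p.1 (d p.2))
  have hSsep : TopologicalSpace.IsSeparable (closure (S : Set V)) :=
    (TopologicalSpace.IsSeparable.span (Set.countable_range _).isSeparable).closure
  -- tails
  have tail : ∀ (L : V →ₗ[ℂ] V), (∀ n, L (d n) ∈ S) → ∀ j k, L (g j 0) - L (g j k) ∈ S := by
    intro L hL j k
    induction k with
    | zero => simp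
    | succ k ih =>
      have : L (g j 0) - L (g j (k + 1)) = (L (g j 0) - L (g j k)) + L (d (a j k)) := by
        rw [hg j k, map_add]; abel
      rw [this]
      exact S.add_mem ih (hL _)
  have step1 : ∀ t : T0, {j | R t (g j 0) ∉ closure (S : Set V)}.Countable := by
    intro t
    refine (countable_of_sum_le (fun j => Metric.infDist (R t (g j 0)) S)
      (fun j => Metric.infDist_nonneg) C fun H => ?_).mono fun j hj => ?_
    · obtain ⟨k, hk⟩ := hD H
      refine le_trans (Finset.sum_le_sum fun j _ => ?_) (h1 t H _ hk)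
      have := tail (R t).toLinearMap (fun n => Submodule.subset_span ⟨(t, n), rfl⟩) j k
      refine (Metric.infDist_le_dist_of_mem this).trans (le_of_eq ?_)
      rw [dist_eq_norm]
      simp
    · intro h0
      exact hj ((Metric.mem_closure_iff_infDist_zero ⟨0, S.zero_mem⟩).2 h0)
  -- the remainder
  have hsum : ∀ v, Summable fun t : (T0ᶜ : Set Γ) => R t v := fun v => (h3 v).summable.subtype _
  let L : V →ₗ[ℂ] V :=
    { toFun := fun v => ∑' t : (T0ᶜ : Set Γ), R t v
      map_add' := fun v w => by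
        simp only [map_add]; exact (hsum v).tsum_add (hsum w)
      map_smul' := fun c v => by
        simp only [map_smul, RingHom.id_apply]; exact (hsum v).tsum_const_smul c }
  have hLd : ∀ n, L (d n) = 0 := by
    intro n
    show ∑' t : (T0ᶜ : Set Γ), R t (d n) = 0
    simp only [fun t : (T0ᶜ : Set Γ) => hT0' t t.2 n, tsum_zero]
  have hLn : ∀ v, ‖L v‖ ≤ C * ‖v‖ := by
    intro v
    have ht : Tendsto (fun F : Finset (T0ᶜ : Set Γ) => ∑ t ∈ F, R t v) atTop (𝓝 (L v)) :=
      (hsum v).hasSum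
    refine le_of_tendsto' ht.norm fun F => ?_
    have := h2 (F.map (Function.Embedding.subtype _)) v
    rwa [Finset.sum_map] at this
  have hLg : ∀ j k, L (g j k) = L (g j 0) := by
    intro j k
    induction k with
    | zero => rfl
    | succ k ih => rw [← ih, hg j k, map_add, hLd, zero_add]
  have step2 : ∀ n, {j | ‖φ n (L (g j 0))‖ ≠ 0}.Countable := by
    intro n
    refine countable_of_sum_le _ (fun j => norm_nonneg _) C fun H => ?_
    obtain ⟨k, hk⟩ := hD H
    have := sum_norm_le_of_WB H (fun j => g j k) ((φ n).toLinearMap.comp L) C (fun c hc => by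
      refine (hφ n _).trans ((hLn _).trans ?_)
      simpa using mul_le_mul_of_nonneg_left (hk c hc) hC)
    simpa [hLg] using this
  have hbad : ((⋃ t : T0, {j | R t (g j 0) ∉ closure (S : Set V)}) ∪
      ⋃ n, {j | ‖φ n (L (g j 0))‖ ≠ 0}).Countable :=
    (Set.countable_iUnion step1).union (Set.countable_iUnion step2)
  have hgood : ∀ j, j ∉ ((⋃ t : T0, {j | R t (g j 0) ∉ closure (S : Set V)}) ∪
      ⋃ n, {j | ‖φ n (L (g j 0))‖ ≠ 0}) → g j 0 ∈ closure (S : Set V) := by
    intro j hj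
    simp only [Set.mem_union, Set.mem_iUnion, Set.mem_ofPred_eq, not_or, not_exists, not_not,
      norm_eq_zero] at hj
    have hL0 : L (g j 0) = 0 := hsep _ hj.2
    have hs1 : Summable fun t : T0 => R t (g j 0) := (h3 _).summable.subtype _
    have e := (h3 (g j 0)).summable.tsum_subtype_add_tsum_subtype_compl T0
    rw [(h3 (g j 0)).tsum_eq] at e
    have e' : ∑' t : (T0ᶜ : Set Γ), R t (g j 0) = 0 := hL0
    rw [e', add_zero] at e
    rw [← e]
    have : closure (S : Set V) = (S.topologicalClosure : Set V) := rfl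
    rw [this] at hj ⊢
    exact S.isClosed_topologicalClosure.mem_of_tendsto hs1.hasSum
      (Eventually.of_forall fun F => S.topologicalClosure.sum_mem fun t _ => hj.1 t)
  obtain ⟨c, hc, hcS⟩ := hSsep
  have hpick : ∀ j, g j 0 ∈ closure (S : Set V) → ∃ y ∈ c, dist (g j 0) y < 1 / 2 :=
    fun j hj => Metric.mem_closure_iff.1 (hcS hj) _ (by norm_num)
  choose! y hy1 hy2 using hpick
  have hgoodc : {j | g j 0 ∈ closure (S : Set V)}.Countable := by
    refine Set.MapsTo.countable_of_injOn (f := y) (fun j hj => hy1 j hj) ?_ hc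
    intro j hj j' hj' e
    by_contra hne
    have := hs j j' hne
    have a1 := hy2 j hj
    have a2 := hy2 j' hj'
    rw [e] at a1
    have := dist_triangle_right (g j 0) (g j' 0) (y j')
    rw [dist_eq_norm] at this
    linarith
  refine Set.not_countable_univ (α := J) ((hbad.union hgoodc).mono fun j _ => ?_)
  by_cases h : j ∈ ((⋃ t : T0, {j | R t (g j 0) ∉ closure (S : Set V)}) ∪
      ⋃ n, {j | ‖φ n (L (g j 0))‖ ≠ 0})
  · exact Or.inl h
  · exact Or.inr (hgood j h)

end

end Pool.Agent.H.MP_e07d6f_an
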