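import Mathlib
import Pool.Agent.H.MP_e07d6f_an.B

/-! Compact operators, the almost disjoint family, and the left-hand example. -/

namespace Pool.Agent.H.MP_e07d6f_an

open Filter Topology
open scoped ENNReal

noncomputable section

section common
variable {E : Type} [NormedAddCommGroup E] [NormedSpace ℂ E]

def toK {X : Type} [NormedAddCommGroup X] [NormedSpace ℂ X]
    (K : Submodule ℂ (E →L[ℂ] E)) (L : X →L[ℂ] E →L[ℂ] E) (h : ∀ x, L x ∈ K) :
    X →L[ℂ] K :=
  LinearMap.mkContinuous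
    { toFun := fun x => ⟨L x, h x⟩
      map_add' := fun x y => Subtype.ext (map_add L x y)
      map_smul' := fun c x => Subtype.ext (map_smul L c x) } ‖L‖ (fun x => L.le_opNorm x)

lemma toK_coe {X : Type} [NormedAddCommGroup X] [NormedSpace ℂ X]
    (K : Submodule ℂ (E →L[ℂ] E)) (L : X →L[ℂ] E →L[ℂ] E) (h : ∀ x, L x ∈ K) (x : X) :
    (toK K L h x).1 = L x := rfl

def valK (K : Submodule ℂ (E →L[ℂ] E)) : K →L[ℂ] E →L[ℂ] E :=
  LinearMap.mkContinuous
    { toFun := fun x => x.1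
      map_add' := fun _ _ => rfl
      map_smul' := fun _ _ => rfl } 1 (fun x => by simp)

lemma valK_apply (K : Submodule ℂ (E →L[ℂ] E)) (x : K) : valK K x = x.1 := rfl

lemma coe_sumK {ι : Type} (K : Submodule ℂ (E →L[ℂ] E)) (F : Finset ι) (x : ι → K) :
    (∑ i ∈ F, x i).1 = ∑ i ∈ F, (x i).1 := map_sum (valK K) x F

lemma rk_compact (f : E →L[ℂ] ℂ) (x : E) : IsCompactOperator (f.smulRight x) := by
  have h : IsCompactOperator f := isCompactOperator_of_locallyCompactSpace_dom f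
  exact h.clm_comp (ContinuousLinearMap.toSpanSingleton ℂ x)

lemma completeK [CompleteSpace E] (K : Submodule ℂ (E →L[ℂ] E))
    (hK : ∀ T, T ∈ K ↔ IsCompactOperator T) : CompleteSpace K := by
  have : IsClosed (K : Set (E →L[ℂ] E)) := by
    have e : (K : Set (E →L[ℂ] E)) = {T : E →L[ℂ] E | IsCompactOperator T} := Set.ext hK
    rw [e]
    exact isClosed_setOfPred_isCompactOperator
  exact this.completeSpace_coe

lemma strong_compact {ι : Type} (l : Filter ι) (Q : ι → E →L[ℂ] E) (hQ : ∀ i y, ‖Q i y‖ ≤ ‖y‖)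
    (hl : ∀ y, Tendsto (fun i => Q i y) l (𝓝 y)) (T : E →L[ℂ] E) (hT : IsCompactOperator T) :
    Tendsto (fun i => (Q i).comp T) l (𝓝 T) := by
  obtain ⟨Kc, hKc, hsub⟩ :=
    IsCompactOperator.image_closedBall_subset_compact (f := T.toLinearMap) hT 1
  rw [Metric.tendsto_nhds]
  intro ε hε
  obtain ⟨s, -, hs, hcov⟩ := hKc.finite_cover_balls (e := ε / 4) (by positivity)
  have hev : ∀ᶠ i in l, ∀ u ∈ s, dist (Q i u) u < ε / 4 :=
    (eventually_all_finite hs).2 fun u _ => Metric.tendsto_nhds.1 (hl u) _ (by positivity)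
  filter_upwards [hev] with i hi
  rw [dist_eq_norm]
  refine lt_of_le_of_lt (ContinuousLinearMap.opNorm_le_of_unit_norm (C := 3 * (ε / 4))
    (by positivity) fun x hx => ?_) (by linarith)
  have hx' : T x ∈ Kc := hsub ⟨x, by simp [hx], rfl⟩
  obtain ⟨u, hu, hd⟩ := Set.mem_iUnion₂.1 (hcov hx')
  have h1 := hi u hu
  rw [Metric.mem_ball, dist_eq_norm] at hd
  rw [dist_eq_norm] at h1
  have e : ((Q i).comp T - T) x = Q i (T x - u) + (Q i u - u) - (T x - u) := by
    simp only [sub_apply, ContinuousLinearMap.comp_apply, map_sub]; abel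
  rw [e]
  have h2 := hQ i (T x - u)
  have h3 := norm_sub_le (Q i (T x - u) + (Q i u - u)) (T x - u)
  have h4 := norm_add_le (Q i (T x - u)) (Q i u - u)
  linarith

end common

/-! the almost disjoint family -/

abbrev II : Type := ℕ × Finset ℕ

open Classical in
def aa (S : Set ℕ) (n : ℕ) : II := (n, (Finset.range n).filter (· ∈ S))

lemma aa_fst (S : Set ℕ) (n : ℕ) : (aa S n).1 = n := rfl

lemma aa_inj (S : Set ℕ) : Function.Injective (aa S) := fun _ _ h => congrArg Prod.fst h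

lemma aa_ne {S S' : Set ℕ} (h : S ≠ S') : ∀ᶠ n in atTop, aa S n ≠ aa S' n := by
  obtain ⟨m, hm⟩ : ∃ m, ¬ (m ∈ S ↔ m ∈ S') := by
    by_contra hc
    push Not at hc
    exact h (Set.ext hc)
  filter_upwards [eventually_gt_atTop m] with n hn e
  have := congrArg (fun p : II => m ∈ p.2) e
  simp only [aa, Finset.mem_filter, Finset.mem_range, hn, true_and, eq_iff_iff] at this
  exact hm this

abbrev Linf : Type := lp (fun _ : II => ℂ) ∞

open Classical in
def chi (S : Set ℕ) (k : ℕ) : Linf :=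
  ⟨fun i => if k ≤ i.1 ∧ i = aa S i.1 then 1 else 0, memℓp_infty ⟨1, by
    rintro _ ⟨i, rfl⟩
    dsimp only
    split_ifs <;> simp⟩⟩

open Classical in
lemma chi_apply (S : Set ℕ) (k : ℕ) (i : II) :
    chi S k i = if k ≤ i.1 ∧ i = aa S i.1 then 1 else 0 := rfl

def ee (n : II) : Linf := lp.single ∞ n 1

lemma ee_apply (n i : II) : ee n i = if i = n then 1 else 0 := by
  simp only [ee, lp.single_apply, Pi.single_apply]

lemma chi_succ (S : Set ℕ) (k : ℕ) : chi S k = ee (aa S k) + chi S (k + 1) := by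
  ext i
  simp only [lp.coeFn_add, Pi.add_apply, chi_apply, ee_apply]
  by_cases h : i = aa S k
  · subst h
    simp [aa_fst]
  · rw [if_neg h, zero_add]
    congr 1
    apply propext
    constructor
    · rintro ⟨h1, h2⟩
      refine ⟨?_, h2⟩
      rcases h1.eq_or_lt with e | e
      · exact absurd (by rw [e]; exact h2) h
      · exact e
    · rintro ⟨h1, h2⟩
      exact ⟨by omega, h2⟩

/-- the vectors indexed by points and branches -/
def gg : II ⊕ Set ℕ → ℕ → Linf
  | Sum.inl n, _ => ee n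
  | Sum.inr S, k => chi S k

lemma gg_le (t : II ⊕ Set ℕ) (k : ℕ) (i : II) : ‖gg t k i‖ ≤ 1 := by
  cases t with
  | inl n => simp only [gg, ee_apply]; split_ifs <;> simp
  | inr S => simp only [gg, chi_apply]; split_ifs <;> simp

lemma gg_disj {t t' : II ⊕ Set ℕ} (h : t ≠ t') :
    ∀ᶠ k in atTop, ∀ i, gg t k i = 0 ∨ gg t' k i = 0 := by
  have mixed : ∀ (n : II) (S : Set ℕ), ∀ᶠ k in atTop, ∀ i, ee n i = 0 ∨ chi S k i = 0 := by
    intro n S
    filter_upwards [eventually_gt_atTop n.1] with k hk i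
    by_cases e : i = n
    · right
      rw [chi_apply, if_neg]
      rintro ⟨h1, -⟩
      rw [e] at h1
      omega
    · left
      rw [ee_apply, if_neg e]
  cases t with
  | inl n =>
    cases t' with
    | inl n' =>
      refine Eventually.of_forall fun k i => ?_
      simp only [gg, ee_apply]
      by_cases e : i = n
      · right
        rw [if_neg]
        rintro rfl
        exact h (by rw [e])
      · left
        rw [if_neg e]
    | inr S => exact mixed n S
  | inr S =>
    cases t' with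
    | inl n' => exact (mixed n' S).mono fun k hk i => (hk i).symm
    | inr S' =>
      have hne : S ≠ S' := fun e => h (by rw [e])
      obtain ⟨k0, hk0⟩ := eventually_atTop.1 (aa_ne hne)
      filter_upwards [eventually_ge_atTop k0] with k hk i
      simp only [gg, chi_apply]
      by_cases e : k ≤ i.1 ∧ i = aa S i.1
      · right
        rw [if_neg]
        rintro ⟨-, h2⟩
        exact hk0 i.1 (hk.trans e.1) (e.2.symm.trans h2)
      · left
        rw [if_neg e]

lemma WB_disj {J : Type} (H : Finset J) (w : J → Linf) (h1 : ∀ j i, ‖w j i‖ ≤ 1)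
    (h2 : ∀ j ∈ H, ∀ j' ∈ H, j ≠ j' → ∀ i, w j i = 0 ∨ w j' i = 0) : WB H w 1 := by
  intro c hc
  refine lp.norm_le_of_forall_le zero_le_one fun i => ?_
  rw [lp.coeFn_sum, Finset.sum_apply]
  simp only [lp.coeFn_smul, Pi.smul_apply, smul_eq_mul]
  by_cases h : ∃ j ∈ H, w j i ≠ 0
  · obtain ⟨j, hj, hne⟩ := h
    rw [Finset.sum_eq_single j (fun j' hj' e => by
      rw [(h2 j hj j' hj' e.symm i).resolve_left hne, mul_zero]) (fun h => absurd hj h), norm_mul]
    exact mul_le_one₀ (hc j) (norm_nonneg _) (h1 j i)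
  · push Not at h
    rw [Finset.sum_eq_zero (fun j hj => by rw [h j hj, mul_zero])]
    simp

lemma WB_gg (F : Finset (II ⊕ Set ℕ)) : ∀ᶠ k in atTop, WB F (fun t => gg t k) 1 := by
  have : ∀ᶠ k in atTop, ∀ t ∈ F, ∀ t' ∈ F, t ≠ t' → ∀ i, gg t k i = 0 ∨ gg t' k i = 0 := by
    refine (eventually_all_finset F).2 fun t _ => (eventually_all_finset F).2 fun t' _ => ?_
    by_cases h : t = t'
    · exact Eventually.of_forall fun k hk => absurd h hk
    · exact (gg_disj h).mono fun k hk _ => hk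
  exact this.mono fun k hk => WB_disj F _ (fun t i => gg_le t k i) hk

lemma WB_chi (H : Finset (Set ℕ)) : ∃ k, WB H (fun S => chi S k) 1 := by
  have : ∀ᶠ k in atTop, ∀ t ∈ H, ∀ t' ∈ H, t ≠ t' → ∀ i, chi t k i = 0 ∨ chi t' k i = 0 := by
    refine (eventually_all_finset H).2 fun t _ => (eventually_all_finset H).2 fun t' _ => ?_
    by_cases h : t = t'
    · exact Eventually.of_forall fun k hk => absurd h hk
    · exact (gg_disj (t := Sum.inr t) (t' := Sum.inr t') (by simpa using h)).mono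
        fun k hk _ => hk
  obtain ⟨k, hk⟩ := this.exists
  exact ⟨k, WB_disj H _ (fun t i => gg_le (Sum.inr t) k i) hk⟩

lemma WB_ee {J : Type} (H : Finset J) (b : J → II) (hb : Function.Injective b) :
    WB H (fun j => ee (b j)) 1 :=
  WB_disj H _ (fun j i => gg_le (Sum.inl (b j)) 0 i) fun j _ j' _ h =>
    (gg_disj (t := Sum.inl (b j)) (t' := Sum.inl (b j')) (by simpa using hb.ne h)).exists.choose_spec

lemma chi_sep {S S' : Set ℕ} (h : S ≠ S') : ∃ i, chi S 0 i = 1 ∧ chi S' 0 i = 0 := by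
  obtain ⟨n, hn⟩ := (aa_ne h).exists
  refine ⟨aa S n, ?_, ?_⟩
  · rw [chi_apply, if_pos ⟨Nat.zero_le _, rfl⟩]
  · rw [chi_apply, if_neg]
    rintro ⟨-, h2⟩
    exact hn h2

instance : Uncountable (Set ℕ) := by
  rw [← Cardinal.aleph0_lt_mk_iff, Cardinal.mk_set, Cardinal.mk_nat]
  exact Cardinal.cantor _

/-! the left-hand example -/

abbrev L1 : Type := lp (fun _ : II => ℂ) 1

def PP : Linf →L[ℂ] L1 →L[ℂ] ℂ :=
  lp.dualPairing ∞ 1 (fun _ => ContinuousLinearMap.mul ℂ ℂ) (K := 1) (fun _ => by simp)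

lemma PP_norm (f : Linf) : ‖PP f‖ ≤ ‖f‖ := by
  have : ‖PP‖ ≤ 1 := by
    have := lp.norm_dualPairing (p := ∞) (q := 1) (E := fun _ : II => ℂ) (F := fun _ : II => ℂ)
      (fun _ => ContinuousLinearMap.mul ℂ ℂ) (K := 1) (fun _ => by simp)
    exact this
  simpa using PP.le_of_opNorm_le this f

def e1 (n : II) : L1 := lp.single 1 n 1

lemma e1_norm (n : II) : ‖e1 n‖ = 1 := by
  rw [e1, lp.norm_single (by simp)]; simp

lemma e1_apply (n i : II) : e1 n i = if i = n then 1 else 0 := by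
  simp only [e1, lp.single_apply, Pi.single_apply]

lemma PP_e1 (f : Linf) (n : II) : PP f (e1 n) = f n := by
  rw [PP, lp.dualPairing_apply, tsum_eq_single n]
  · simp [e1_apply]
  · intro i hi
    simp [e1_apply, hi]

def es (n : II) : L1 →L[ℂ] ℂ := lp.evalCLM ℂ (fun _ : II => ℂ) 1 n

lemma es_apply (n : II) (x : L1) : es n x = x n := rfl

lemma es_le (n : II) (x : L1) : ‖es n x‖ ≤ ‖x‖ := lp.norm_apply_le_norm (by simp) x n

lemma smul_e1 (c : ℂ) (n : II) : c • e1 n = lp.single 1 n c := by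
  rw [e1, ← lp.single_smul]; simp

lemma norm_sum_e1 (G : Finset II) (c : II → ℂ) : ‖∑ n ∈ G, c n • e1 n‖ = ∑ n ∈ G, ‖c n‖ := by
  have := lp.norm_sum_single (p := 1) (E := fun _ : II => ℂ) (by simp) c G
  simpa [smul_e1] using this

lemma sum_le_L1 (G : Finset II) (x : L1) : ∑ n ∈ G, ‖x n‖ ≤ ‖x‖ := by
  simpa using lp.sum_rpow_le_norm_rpow (p := 1) (by simp) x G

lemma hasSum_e1 (x : L1) : HasSum (fun n => x n • e1 n) x := by
  simpa [smul_e1] using lp.hasSum_single (p := 1) (by simp) x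

theorem left (K : Submodule ℂ (L1 →L[ℂ] L1)) (hK : ∀ T, T ∈ K ↔ IsCompactOperator T) :
    ∀ m : K →ₗ[ℂ] K →ₗ[ℂ] K, (∀ a b, (m a b).1 = a.1.comp b.1) → ¬ Lift (A := K) m := by
  intro m hm hL
  have := completeK K hK
  let κ : II → (L1 →L[ℂ] ℂ) →L[ℂ] K := fun n =>
    toK K ((ContinuousLinearMap.smulRightL ℂ L1 L1).flip (e1 n))
      (fun f => (hK _).2 (rk_compact f (e1 n)))
  have hκ : ∀ n f x, (κ n f).1 x = f x • e1 n := fun n f x => rfl
  let θ : II → K →L[ℂ] L1 →L[ℂ] ℂ := fun n =>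
    (ContinuousLinearMap.compL ℂ L1 L1 ℂ (es n)).comp (valK K)
  have hθ : ∀ n b x, θ n b x = b.1 x n := fun n b x => rfl
  let l : II → K →L[ℂ] K := fun t => (κ t).comp (θ t)
  have hl : ∀ t T x, (l t T).1 x = T.1 x t • e1 t := fun t T x => rfl
  have hmul : ∀ (a b : K) x, (m a b).1 x = a.1 (b.1 x) := fun a b x => by rw [hm]; rfl
  have hsumx : ∀ (G : Finset II) (b : II → K) x, (∑ n ∈ G, b n).1 x = ∑ n ∈ G, (b n).1 x := by
    intro G b x
    rw [coe_sumK, sum_apply]
  have g : Good (A := K) (V := L1 →L[ℂ] ℂ) m θ l 1 := by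
    refine ⟨zero_le_one, fun t T a G => ?_, fun F T => ?_, fun T => ?_⟩
    · have h1 : ∀ n, ‖θ n (m a (l t T))‖ ≤ ‖a.1 (e1 t) n‖ * ‖T‖ := by
        intro n
        refine ContinuousLinearMap.opNorm_le_bound _ (by positivity) fun x => ?_
        rw [hθ, hmul, hl, map_smul, lp.coeFn_smul, Pi.smul_apply, norm_smul, mul_comm, mul_assoc]
        gcongr
        exact (es_le t _).trans (T.1.le_opNorm x)
      refine (Finset.sum_le_sum fun n _ => h1 n).trans ?_
      rw [← Finset.sum_mul, one_mul]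
      gcongr
      refine (sum_le_L1 G _).trans ((a.1.le_opNorm _).trans ?_)
      rw [e1_norm, mul_one]
      rfl
    · rw [one_mul]
      refine ContinuousLinearMap.opNorm_le_bound (∑ t ∈ F, l t T).1 (norm_nonneg _) fun x => ?_
      rw [hsumx]
      simp only [hl]
      rw [norm_sum_e1]
      exact (sum_le_L1 F _).trans (T.1.le_opNorm x)
    · let Q : Finset II → L1 →L[ℂ] L1 := fun F => ∑ t ∈ F, (es t).smulRight (e1 t)
      have hQ : ∀ F y, Q F y = ∑ t ∈ F, y t • e1 t := fun F y => by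
        simp only [Q, sum_apply]; rfl
      have := strong_compact atTop Q (fun F y => by rw [hQ, norm_sum_e1]; exact sum_le_L1 F y)
        (fun y => by simp only [hQ]; exact hasSum_e1 y) T.1 ((hK _).1 T.2)
      show Tendsto (fun F : Finset II => ∑ t ∈ F, l t T) atTop (𝓝 T)
      rw [tendsto_subtype_rng]
      refine this.congr fun F => ?_
      ext1 x
      rw [hsumx, ContinuousLinearMap.comp_apply, hQ]
      rfl
  obtain ⟨ψ, D, gψ, hψ⟩ := gen (A := K) (V := L1 →L[ℂ] ℂ) m (fun a b => by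
      show ‖(m a b).1‖ ≤ _
      rw [hm]; exact ContinuousLinearMap.opNorm_comp_le _ _)
    (fun a b c => Subtype.ext (by simp only [hm]; rfl)) θ l 1 g hL
  obtain ⟨R, C, r1, r2, r3⟩ := rank (A := K) (V := L1 →L[ℂ] ℂ) (J := Set ℕ) m θ ψ D gψ hψ κ
    (fun n k => κ n (es k)) (fun n k b => Subtype.ext (by rw [hm]; rfl))
    (fun n v => by
      ext1 x
      rw [hθ, hκ, lp.coeFn_smul, Pi.smul_apply, e1_apply]; simp)
    (fun n k v h => by
      ext1 x
      rw [hθ, hκ, lp.coeFn_smul, Pi.smul_apply, e1_apply, if_neg h.symm]; simp)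
    (fun G => by
      refine ContinuousLinearMap.opNorm_le_bound (∑ n ∈ G, κ n (es n)).1 zero_le_one fun x => ?_
      rw [hsumx, one_mul]
      simp only [hκ]
      rw [norm_sum_e1]
      exact sum_le_L1 G x)
    (fun G v hv => by
      refine ContinuousLinearMap.opNorm_le_bound (∑ n ∈ G, κ n (v n)).1 zero_le_one fun x => ?_
      rw [hsumx, one_mul]
      simp only [hκ]
      rw [norm_sum_e1]
      exact sum_norm_le_of_WB G v (ContinuousLinearMap.apply ℂ ℂ x).toLinearMap ‖x‖ fun c hc =>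
        ((∑ j ∈ G, c j • v j).le_opNorm x).trans
          (by simpa using mul_le_mul_of_nonneg_right (hv c hc) (norm_nonneg x)))
  refine core R C r1 r2 r3 (fun n => PP (ee n)) aa (fun S k => PP (chi S k))
    (fun S k => by rw [← map_add, ← chi_succ]) (fun H => ?_)
    (fun n => ContinuousLinearMap.apply ℂ ℂ (e1 n))
    (fun n v => by simpa [e1_norm] using v.le_opNorm (e1 n)) (fun v hv => ?_) (fun S S' h => ?_)
  · obtain ⟨k, hk⟩ := WB_chi H
    refine ⟨k, fun c hc => le_trans (le_of_eq ?_) ((PP_norm _).trans (hk c hc))⟩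
    simp only [map_sum, map_smul]
  · ext1 x
    have h1 := v.hasSum (hasSum_e1 x)
    have h2 : ∀ n, v (e1 n) = 0 := hv
    simp only [map_smul, h2, smul_zero] at h1
    exact h1.unique hasSum_zero
  · obtain ⟨i, h1, h2⟩ := chi_sep h
    have := (PP (chi S 0) - PP (chi S' 0)).le_opNorm (e1 i)
    rwa [sub_apply, PP_e1, PP_e1, h1, h2, e1_norm, sub_zero, norm_one, mul_one] at this

end

end Pool.Agent.H.MP_e07d6f_an
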