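import Mathlib
import Pool.Agent.H.MP_e07d6f_an.C

/-! The right-hand example: the closed span of points and branches in the sup space. -/

namespace Pool.Agent.H.MP_e07d6f_an

open Filter Topology
open scoped ENNReal

noncomputable section

lemma vanish {Γ V : Type} [NormedAddCommGroup V] [NormedSpace ℂ V] (Kc : Set V)
    (hK : IsCompact Kc) (v : Γ → V)
    (h : ∀ (F : Finset Γ) (c : Γ → ℂ), (∀ t, ‖c t‖ ≤ 1) → ∑ t ∈ F, c t • v t ∈ Kc)
    (ε : ℝ) (hε : 0 < ε) : ∃ F0 : Finset Γ, ∀ F, Disjoint F F0 → WB F v ε := by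
  obtain ⟨s, -, hs, hcov⟩ := hK.finite_cover_balls (e := ε / 3) (by positivity)
  choose φ hφ1 hφ2 using fun u : V => exists_dual_vector'' ℂ u
  obtain ⟨M, hM⟩ := hK.isBounded.exists_norm_le
  have hsum : ∀ u, Summable fun t => ‖φ u (v t)‖ := fun u =>
    summable_of_sum_le (fun _ => norm_nonneg _) fun F =>
      sum_norm_le_of_WB F v (φ u).toLinearMap M fun c hc =>
        ((φ u).le_of_opNorm_le (hφ1 u) _).trans (by simpa using hM _ (h F c hc))
  have hsum' : Summable fun t => ∑ u ∈ hs.toFinset, ‖φ u (v t)‖ :=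
    summable_sum fun u _ => hsum u
  obtain ⟨F0, hF0⟩ := summable_iff_vanishing_norm.1 hsum' (ε / 3) (by positivity)
  refine ⟨F0, fun F hF c hc => ?_⟩
  obtain ⟨u, hu, hd⟩ := Set.mem_iUnion₂.1 (hcov (h F c hc))
  set w := ∑ t ∈ F, c t • v t with hw
  rw [Metric.mem_ball, dist_eq_norm] at hd
  have h1 : ‖φ u w‖ ≤ ε / 3 := by
    rw [hw, map_sum]
    refine (norm_sum_le _ _).trans (le_trans (Finset.sum_le_sum fun t _ => ?_)
      ((le_abs_self _).trans (hF0 F hF).le))
    rw [map_smul, norm_smul]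
    refine (mul_le_of_le_one_left (norm_nonneg _) (hc t)).trans ?_
    exact Finset.single_le_sum (f := fun u => ‖φ u (v t)‖) (fun _ _ => norm_nonneg _)
      (hs.mem_toFinset.2 hu)
  have h2 : ‖φ u (w - u)‖ ≤ ‖w - u‖ := by simpa using (φ u).le_of_opNorm_le (hφ1 u) (w - u)
  have h3 : ‖u‖ = ‖φ u w - φ u (w - u)‖ := by
    rw [← map_sub, sub_sub_cancel, hφ2]; simp
  have h4 := norm_sub_le (φ u w) (φ u (w - u))
  have h5 : ‖w‖ ≤ ‖w - u‖ + ‖u‖ := by simpa using norm_add_le (w - u) u
  linarith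

lemma exists_ulim (y : ℕ → ℂ) (M : ℝ) (h : ∀ n, ‖y n‖ ≤ M) :
    ∃ z, Tendsto y (hyperfilter ℕ) (𝓝 z) := by
  obtain ⟨z, -, hz⟩ := (isCompact_closedBall (0 : ℂ) M).ultrafilter_le_nhds
    ((hyperfilter ℕ).map y) (by
      rw [le_principal_iff]
      exact Filter.mem_map.2 (Eventually.of_forall fun n => by simpa using h n))
  exact ⟨z, hz⟩

lemma ulim_spec (S : Set ℕ) (y : Linf) :
    Tendsto (fun n => y (aa S n)) (hyperfilter ℕ)
      (𝓝 (limUnder (hyperfilter ℕ : Filter ℕ) fun n => y (aa S n))) :=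
  tendsto_nhds_limUnder (exists_ulim _ ‖y‖ fun _ => lp.norm_apply_le_norm ENNReal.top_ne_zero y _)

/-- limit along a branch -/
def dl (S : Set ℕ) : Linf →L[ℂ] ℂ :=
  LinearMap.mkContinuous
    { toFun := fun y => limUnder (hyperfilter ℕ : Filter ℕ) fun n => y (aa S n)
      map_add' := fun x y => tendsto_nhds_unique (ulim_spec S (x + y))
        ((ulim_spec S x).add (ulim_spec S y))
      map_smul' := fun c x => tendsto_nhds_unique (ulim_spec S (c • x))
        ((ulim_spec S x).const_smul c) } 1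
    (fun y => by
      rw [one_mul]
      exact le_of_tendsto' (ulim_spec S y).norm fun n =>
        lp.norm_apply_le_norm ENNReal.top_ne_zero y _)

lemma dl_le (S : Set ℕ) (y : Linf) : ‖dl S y‖ ≤ ‖y‖ :=
  le_of_tendsto' (ulim_spec S y).norm fun _ => lp.norm_apply_le_norm ENNReal.top_ne_zero y _

lemma dl_eq (S : Set ℕ) (y : Linf) (z : ℂ) (h : ∀ᶠ n in atTop, y (aa S n) = z) : dl S y = z := by
  refine tendsto_nhds_unique (ulim_spec S y) (tendsto_const_nhds.congr' ?_)
  have : (hyperfilter ℕ : Filter ℕ) ≤ atTop := by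
    rw [← Nat.cofinite_eq_atTop]; exact hyperfilter_le_cofinite
  exact (Filter.Eventually.filter_mono this h).mono fun n hn => hn.symm

lemma dl_ee (S : Set ℕ) (n : II) : dl S (ee n) = 0 := by
  refine dl_eq S _ _ ?_
  filter_upwards [eventually_gt_atTop n.1] with k hk
  rw [ee_apply, if_neg]
  rintro rfl
  exact lt_irrefl _ hk

lemma dl_chi_self (S : Set ℕ) : dl S (chi S 0) = 1 :=
  dl_eq S _ _ (Eventually.of_forall fun n => by rw [chi_apply, if_pos ⟨Nat.zero_le _, rfl⟩])

lemma dl_chi_ne {S S' : Set ℕ} (h : S ≠ S') : dl S (chi S' 0) = 0 := by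
  refine dl_eq S _ _ ((aa_ne h).mono fun n hn => ?_)
  rw [chi_apply, if_neg]
  rintro ⟨-, h2⟩
  exact hn h2

/-- the space -/
def JL : Submodule ℂ Linf :=
  (Submodule.span ℂ (Set.range fun t : II ⊕ Set ℕ => gg t 0)).topologicalClosure

lemma gg_mem (t : II ⊕ Set ℕ) (k : ℕ) : gg t k ∈ JL := by
  have h0 : ∀ t, gg t 0 ∈ JL := fun t =>
    Submodule.le_topologicalClosure _ (Submodule.subset_span ⟨t, rfl⟩)
  cases t with
  | inl n => exact h0 (Sum.inl n)
  | inr S =>
    induction k with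
    | zero => exact h0 _
    | succ k ih =>
      have : gg (Sum.inr S) (k + 1) = gg (Sum.inr S) k - gg (Sum.inl (aa S k)) 0 := by
        simp only [gg]; rw [chi_succ S k]; abel
      rw [this]
      exact JL.sub_mem ih (h0 _)

/-- the space as a type -/
def JE : Type := JL

instance : NormedAddCommGroup JE := inferInstanceAs (NormedAddCommGroup JL)

instance : NormedSpace ℂ JE := inferInstanceAs (NormedSpace ℂ JL)

instance : CompleteSpace JE := (Submodule.isClosed_topologicalClosure _).completeSpace_coe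

def val : JE →L[ℂ] Linf := JL.subtypeL

lemma val_norm (y : JE) : ‖val y‖ = ‖y‖ := rfl

lemma val_inj {x y : JE} (h : val x = val y) : x = y := Subtype.ext h

def gE (t : II ⊕ Set ℕ) (k : ℕ) : JE := (⟨gg t k, gg_mem t k⟩ : JL)

lemma val_gE (t : II ⊕ Set ℕ) (k : ℕ) : val (gE t k) = gg t k := rfl

def eE (n : II) : JE := gE (Sum.inl n) 0

lemma val_eE (n : II) : val (eE n) = ee n := rfl

lemma gE_succ (S : Set ℕ) (k : ℕ) : gE (Sum.inr S) k = eE (aa S k) + gE (Sum.inr S) (k + 1) :=
  val_inj (by rw [map_add, val_gE, val_gE, val_eE]; exact chi_succ S k)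

lemma WB_E {J : Type} (H : Finset J) (w : J → JE) (M : ℝ) (h : WB H (fun j => val (w j)) M) :
    WB H w M := by
  intro c hc
  have := h c hc
  rw [← val_norm, map_sum]
  simpa only [map_smul] using this

lemma WB_eE {J : Type} (H : Finset J) (b : J → II) (hb : Function.Injective b) :
    WB H (fun j => eE (b j)) 1 :=
  WB_E H _ 1 (by simp only [val_eE]; exact WB_ee H b hb)

lemma WB_gE (F : Finset (II ⊕ Set ℕ)) : ∀ᶠ k in atTop, WB F (fun t => gE t k) 1 :=
  (WB_gg F).mono fun k hk => WB_E F _ 1 (by simp only [val_gE]; exact hk)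

/-- the coordinate functionals -/
def dE : II ⊕ Set ℕ → JE →L[ℂ] ℂ
  | Sum.inl n => (lp.evalCLM ℂ (fun _ : II => ℂ) ∞ n).comp val
  | Sum.inr S => (dl S).comp val

lemma dE_inl (n : II) (y : JE) : dE (Sum.inl n) y = val y n := rfl

lemma dE_inr (S : Set ℕ) (y : JE) : dE (Sum.inr S) y = dl S (val y) := rfl

lemma dE_le (t : II ⊕ Set ℕ) (y : JE) : ‖dE t y‖ ≤ ‖y‖ := by
  cases t with
  | inl n => exact lp.norm_apply_le_norm ENNReal.top_ne_zero (val y) n
  | inr S => exact dl_le S (val y)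

lemma JL_ext {W : Type} [NormedAddCommGroup W] [NormedSpace ℂ W] (T T' : JE →L[ℂ] W)
    (h : ∀ t, T (gE t 0) = T' (gE t 0)) : T = T' := by
  refine ContinuousLinearMap.ext_on (s := Set.range fun t => gE t 0) ?_ (by
    rintro _ ⟨t, rfl⟩; exact h t)
  intro y
  have hiso : Isometry val := AddMonoidHomClass.isometry_of_norm val val_norm
  rw [hiso.isEmbedding.closure_eq_preimage_closure_image]
  have hy : val y ∈ closure (Submodule.span ℂ (Set.range fun t : II ⊕ Set ℕ => gg t 0) :
    Set Linf) := y.2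
  have : Submodule.span ℂ (Set.range fun t : II ⊕ Set ℕ => gg t 0) =
      (Submodule.span ℂ (Set.range fun t => gE t 0)).map val.toLinearMap := by
    rw [Submodule.map_span, ← Set.range_comp]; rfl
  rw [this] at hy
  exact hy

section op
variable (T : JE →L[ℂ] JE)

def KT : Set JE := closure (T '' Metric.closedBall 0 1)

lemma KT_compact (hT : IsCompactOperator T) : IsCompact (KT T) :=
  IsCompactOperator.isCompact_closure_image_closedBall (f := T.toLinearMap) hT 1

lemma KT_le (u : JE) (hu : u ∈ KT T) : ‖u‖ ≤ ‖T‖ := by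
  refine closure_minimal (t := {u : JE | ‖u‖ ≤ ‖T‖}) ?_
    (isClosed_le continuous_norm continuous_const) hu
  rintro _ ⟨x, hx, rfl⟩
  have : ‖x‖ ≤ 1 := by simpa using hx
  exact T.unit_le_opNorm x this

lemma mem_KT {J : Type} (H : Finset J) (w : J → JE) (h : WB H w 1) (c : J → ℂ)
    (hc : ∀ j, ‖c j‖ ≤ 1) : ∑ j ∈ H, c j • T (w j) ∈ KT T :=
  subset_closure ⟨∑ j ∈ H, c j • w j, by simpa using h c hc, by simp⟩

lemma summable_branch (hT : IsCompactOperator T) (S : Set ℕ) :
    Summable fun m => T (eE (aa S m)) := by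
  refine summable_iff_vanishing_norm.2 fun ε hε => ?_
  obtain ⟨F0, hF0⟩ := vanish (KT T) (KT_compact T hT) (fun m => T (eE (aa S m)))
    (fun F c hc => mem_KT T F (fun m => eE (aa S m)) (WB_eE F (aa S) (aa_inj S)) c hc) (ε / 2)
    (by positivity)
  refine ⟨F0, fun F hF => ?_⟩
  have := hF0 F hF (fun _ => 1) (by simp)
  simp only [one_smul] at this
  linarith

/-- the atoms of the representing measure -/
def vv : II ⊕ Set ℕ → JE
  | Sum.inl n => T (eE n)
  | Sum.inr S => T (gE (Sum.inr S) 0) - ∑' m, T (eE (aa S m))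

lemma vv_tendsto (hT : IsCompactOperator T) (t : II ⊕ Set ℕ) :
    Tendsto (fun k => T (gE t k)) atTop (𝓝 (vv T t)) := by
  cases t with
  | inl n => exact tendsto_const_nhds
  | inr S =>
    have e : ∀ k, T (gE (Sum.inr S) k) =
        T (gE (Sum.inr S) 0) - ∑ m ∈ Finset.range k, T (eE (aa S m)) := by
      intro k
      induction k with
      | zero => simp
      | succ k ih => rw [Finset.sum_range_succ, ← sub_sub, ← ih, gE_succ S k, map_add]; abel
    have := (summable_branch T hT S).hasSum.tendsto_sum_nat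
    exact (tendsto_const_nhds.sub this).congr fun k => (e k).symm

lemma vv_mem (hT : IsCompactOperator T) (F : Finset (II ⊕ Set ℕ)) (c : II ⊕ Set ℕ → ℂ)
    (hc : ∀ t, ‖c t‖ ≤ 1) : ∑ t ∈ F, c t • vv T t ∈ KT T :=
  isClosed_closure.mem_of_tendsto
    (tendsto_finsetSum F fun t _ => (vv_tendsto T hT t).const_smul (c t))
    ((WB_gE F).mono fun k hk => mem_KT T F (fun t => gE t k) hk c hc)

lemma vv_le (hT : IsCompactOperator T) (t : II ⊕ Set ℕ) : ‖vv T t‖ ≤ ‖T‖ := by
  simpa using KT_le T _ (vv_mem T hT {t} (fun _ => 1) (by simp))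

lemma hasSum_gen (hT : IsCompactOperator T) (s : II ⊕ Set ℕ) :
    HasSum (fun t => dE t (gE s 0) • vv T t) (T (gE s 0)) := by
  cases s with
  | inl n =>
    have := hasSum_single (f := fun t => dE t (gE (Sum.inl n) 0) • vv T t) (Sum.inl n) (by
      intro t ht
      cases t with
      | inl m =>
        have : m ≠ n := fun e => ht (by rw [e])
        have e : dE (Sum.inl m) (gE (Sum.inl n) 0) = 0 := by
          show ee n m = 0
          rw [ee_apply, if_neg this]
        rw [e, zero_smul]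
      | inr S =>
        have e : dE (Sum.inr S) (gE (Sum.inl n) 0) = 0 := dl_ee S n
        rw [e, zero_smul])
    have e : dE (Sum.inl n) (gE (Sum.inl n) 0) = 1 := by
      show ee n n = 1
      rw [ee_apply, if_pos rfl]
    rw [e, one_smul] at this
    exact this
  | inr S =>
    have h1 : HasSum ((fun t => dE t (gE (Sum.inr S) 0) • vv T t) ∘ Sum.inl)
        (∑' m, T (eE (aa S m))) := by
      refine ((aa_inj S).hasSum_iff fun i hi => ?_).1 ?_
      · show chi S 0 i • vv T (Sum.inl i) = 0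
        rw [chi_apply, if_neg, zero_smul]
        rintro ⟨-, h2⟩
        exact hi ⟨i.1, h2.symm⟩
      · have e : ((fun t => dE t (gE (Sum.inr S) 0) • vv T t) ∘ Sum.inl) ∘ aa S =
            fun m => T (eE (aa S m)) := by
          funext m
          show chi S 0 (aa S m) • T (eE (aa S m)) = _
          rw [chi_apply, if_pos ⟨Nat.zero_le _, rfl⟩, one_smul]
        rw [e]
        exact (summable_branch T hT S).hasSum
    have h2 := hasSum_single (f := (fun t => dE t (gE (Sum.inr S) 0) • vv T t) ∘ Sum.inr) S (by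
      intro S' hS
      show dl S' (chi S 0) • vv T (Sum.inr S') = 0
      rw [dl_chi_ne hS, zero_smul])
    have := h1.sum h2
    have e : (∑' m, T (eE (aa S m))) + ((fun t => dE t (gE (Sum.inr S) 0) • vv T t) ∘ Sum.inr) S
        = T (gE (Sum.inr S) 0) := by
      show _ + dl S (chi S 0) • vv T (Sum.inr S) = _
      rw [dl_chi_self, one_smul, vv]
      abel
    rwa [e] at this

end op

lemma rk_sum_le {J : Type} (F : Finset J) (f : J → JE →L[ℂ] ℂ) (hf : ∀ j y, ‖f j y‖ ≤ ‖y‖)
    (x : J → JE) (M : ℝ) (hM : 0 ≤ M) (h : WB F x M) : ‖∑ j ∈ F, (f j).smulRight (x j)‖ ≤ M := by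
  refine ContinuousLinearMap.opNorm_le_of_unit_norm hM fun y hy => ?_
  rw [sum_apply]
  exact h (fun j => f j y) fun j => (hf j y).trans hy.le

theorem right (K : Submodule ℂ (JE →L[ℂ] JE)) (hK : ∀ T, T ∈ K ↔ IsCompactOperator T) :
    ∀ m : K →ₗ[ℂ] K →ₗ[ℂ] K, (∀ a b, (m a b).1 = b.1.comp a.1) → ¬ Lift (A := K) m := by
  intro m hm hL
  have := completeK K hK
  have hc : ∀ T : K, IsCompactOperator T.1 := fun T => (hK _).1 T.2
  let rk : (JE →L[ℂ] ℂ) → JE →L[ℂ] K := fun f =>
    toK K (ContinuousLinearMap.smulRightL ℂ JE JE f) (fun x => (hK _).2 (rk_compact f x))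
  have hrk : ∀ f x, (rk f x).1 = f.smulRight x := fun f x => rfl
  let θ : II → K →L[ℂ] JE := fun n => (ContinuousLinearMap.apply ℂ JE (eE n)).comp (valK K)
  have hθ : ∀ n b, θ n b = b.1 (eE n) := fun n b => rfl
  let v : II ⊕ Set ℕ → K →L[ℂ] JE := fun t => LinearMap.mkContinuous
    { toFun := fun T => vv T.1 t
      map_add' := fun T T' => tendsto_nhds_unique (vv_tendsto _ (hc (T + T')) t)
        ((vv_tendsto _ (hc T) t).add (vv_tendsto _ (hc T') t))
      map_smul' := fun c T => tendsto_nhds_unique (vv_tendsto _ (hc (c • T)) t)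
        ((vv_tendsto _ (hc T) t).const_smul c) } 1
    (fun T => by rw [one_mul]; exact vv_le _ (hc T) t)
  let l : II ⊕ Set ℕ → K →L[ℂ] K := fun t => (rk (dE t)).comp (v t)
  have hl : ∀ t T, (l t T).1 = (dE t).smulRight (vv T.1 t) := fun t T => rfl
  have hWe : ∀ G : Finset II, WB G eE 1 := fun G => WB_eE G id Function.injective_id
  have hsl : ∀ (F : Finset (II ⊕ Set ℕ)) (T : K) (M : ℝ), 0 ≤ M → WB F (vv T.1) M →
      ‖∑ t ∈ F, l t T‖ ≤ M := by
    intro F T M hM h
    show ‖(∑ t ∈ F, l t T).1‖ ≤ M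
    rw [coe_sumK]
    simp only [hl]
    exact rk_sum_le F dE dE_le _ M hM h
  have g : Good (A := K) (V := JE) m θ l 1 := by
    refine ⟨zero_le_one, fun t T a G => ?_, fun F T => ?_, fun T => ?_⟩
    · have h1 : ∀ n, ‖θ n (m a (l t T))‖ = ‖dE t (a.1 (eE n))‖ * ‖vv T.1 t‖ := by
        intro n
        rw [hθ, hm, hl, ContinuousLinearMap.comp_apply, ContinuousLinearMap.smulRight_apply,
          norm_smul]
      simp only [h1]
      rw [← Finset.sum_mul, one_mul]
      refine mul_le_mul ?_ (vv_le _ (hc T) t) (norm_nonneg _) (norm_nonneg _)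
      exact sum_norm_le_of_WB G eE ((dE t).comp a.1).toLinearMap ‖a‖ fun c hc =>
        (dE_le t _).trans (a.1.unit_le_opNorm _ (hWe G c hc))
    · rw [one_mul]
      exact hsl F T _ (norm_nonneg _) fun c hc' => KT_le _ _ (vv_mem _ (hc T) F c hc')
    · have hs : Summable fun t => l t T := by
        refine summable_iff_vanishing_norm.2 fun ε hε => ?_
        obtain ⟨F0, hF0⟩ := vanish (KT T.1) (KT_compact _ (hc T)) (vv T.1) (vv_mem _ (hc T))
          (ε / 2) (by positivity)
        exact ⟨F0, fun F hF => lt_of_le_of_lt (hsl F T _ (by positivity) (hF0 F hF))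
          (by linarith)⟩
      have e : ∑' t, l t T = T := by
        refine Subtype.ext (JL_ext _ _ fun s => ?_)
        have h1 := ((ContinuousLinearMap.apply ℂ JE (gE s 0)).comp (valK K)).hasSum hs.hasSum
        exact h1.unique (hasSum_gen T.1 (hc T) s)
      have := hs.hasSum
      rwa [e] at this
  obtain ⟨ψ, D, gψ, hψ⟩ := gen (A := K) (V := JE) m (fun a b => by
      show ‖(m a b).1‖ ≤ _
      rw [hm, mul_comm]; exact ContinuousLinearMap.opNorm_comp_le _ _)
    (fun a b c => Subtype.ext (by simp only [hm]; rfl)) θ l 1 g hL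
  have hde : ∀ n k, dE (Sum.inl n) (eE k) = if n = k then 1 else 0 := fun n k => ee_apply k n
  obtain ⟨R, C, r1, r2, r3⟩ := rank (A := K) (V := JE) (J := Set ℕ) m θ ψ D gψ hψ
    (fun n => rk (dE (Sum.inl n))) (fun n k => rk (dE (Sum.inl n)) (eE k))
    (fun n k b => Subtype.ext (by
      rw [hm, hrk, hrk, hθ]
      ext1 x
      simp))
    (fun n x => by rw [hθ, hrk, ContinuousLinearMap.smulRight_apply, hde]; simp)
    (fun n k x h => by rw [hθ, hrk, ContinuousLinearMap.smulRight_apply, hde, if_neg h]; simp)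
    (fun G => by
      show ‖(∑ n ∈ G, rk (dE (Sum.inl n)) (eE n)).1‖ ≤ 1
      rw [coe_sumK]
      exact rk_sum_le G (fun n => dE (Sum.inl n)) (fun n => dE_le _) _ 1 zero_le_one (hWe G))
    (fun G x hx => by
      show ‖(∑ n ∈ G, rk (dE (Sum.inl n)) (x n)).1‖ ≤ 1
      rw [coe_sumK]
      exact rk_sum_le G (fun n => dE (Sum.inl n)) (fun n => dE_le _) _ 1 zero_le_one hx)
  refine core R C r1 r2 r3 eE aa (fun S k => gE (Sum.inr S) k) gE_succ (fun H => ?_)
    (fun n => dE (Sum.inl n)) (fun n => dE_le _) (fun x hx => ?_) (fun S S' h => ?_)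
  · obtain ⟨k, hk⟩ := WB_chi H
    exact ⟨k, WB_E H _ 1 (by simp only [val_gE]; exact hk)⟩
  · exact val_inj (lp.ext (funext hx))
  · obtain ⟨i, h1, h2⟩ := chi_sep h
    have := dE_le (Sum.inl i) (gE (Sum.inr S) 0 - gE (Sum.inr S') 0)
    rw [map_sub] at this
    have e1 : dE (Sum.inl i) (gE (Sum.inr S) 0) = 1 := h1
    have e2 : dE (Sum.inl i) (gE (Sum.inr S') 0) = 0 := h2
    rwa [e1, e2, sub_zero, norm_one] at this

end

end Pool.Agent.H.MP_e07d6f_an
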