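import Mathlib

/-! Banach modules, relative projectivity, hereditary algebras, compact operators. -/

namespace Pool.Agent.H.MP_e07d6f_an.Defs

/-- the compact operators on `E`, with the operator norm -/
abbrev K (E : Type) [NormedAddCommGroup E] [NormedSpace ℂ E] : Type :=
  compactOperator (RingHom.id ℂ) E E

/-- composition of compact operators -/
noncomputable def cmul {E : Type} [NormedAddCommGroup E] [NormedSpace ℂ E] (S T : K E) : K E :=
  ⟨S.1.comp T.1, IsCompactOperator.comp_clm S.2 T.1⟩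

/-- the opposite product -/
noncomputable def omul {E : Type} [NormedAddCommGroup E] [NormedSpace ℂ E] (S T : K E) : K E :=
  cmul T S

/-- `act` is a Banach left module action for the product `mul` -/
def IsMod {A X : Type} [NormedAddCommGroup A] [NormedSpace ℂ A] [NormedAddCommGroup X]
    [NormedSpace ℂ X] (mul : A → A → A) (act : A → X → X) : Prop :=
  IsBoundedBilinearMap ℂ (fun p : A × X => act p.1 p.2) ∧ (∀ a x, ‖act a x‖ ≤ ‖a‖ * ‖x‖) ∧
    ∀ a b x, act (mul a b) x = act a (act b x)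

/-- bounded linear module map -/
def IsMor {A X Y : Type} [NormedAddCommGroup X] [NormedSpace ℂ X] [NormedAddCommGroup Y]
    [NormedSpace ℂ Y] (aX : A → X → X) (aY : A → Y → Y) (f : X → Y) : Prop :=
  IsBoundedLinearMap ℂ f ∧ ∀ a x, f (aX a x) = aY a (f x)

/-- `f` has a bounded linear right inverse -/
def Adm {X Y : Type} [NormedAddCommGroup X] [NormedSpace ℂ X] [NormedAddCommGroup Y]
    [NormedSpace ℂ Y] (f : X → Y) : Prop :=
  ∃ ρ : Y → X, IsBoundedLinearMap ℂ ρ ∧ ∀ y, f (ρ y) = y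

/-- relative projectivity, lifting form -/
def Proj {A : Type} [NormedAddCommGroup A] [NormedSpace ℂ A] (mul : A → A → A) (P : Type)
    [NormedAddCommGroup P] [NormedSpace ℂ P] (aP : A → P → P) : Prop :=
  ∀ (X Y : Type) [NormedAddCommGroup X] [NormedSpace ℂ X] [CompleteSpace X]
    [NormedAddCommGroup Y] [NormedSpace ℂ Y] [CompleteSpace Y] (aX : A → X → X) (aY : A → Y → Y),
    IsMod mul aX → IsMod mul aY → ∀ σ : X → Y, IsMor aX aY σ → Adm σ →
    ∀ φ : P → Y, IsMor aP aY φ → ∃ ψ : P → X, IsMor aP aX ψ ∧ ∀ p, σ (ψ p) = φ p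

/-- relative projectivity, retraction form -/
def ProjR {A : Type} [NormedAddCommGroup A] [NormedSpace ℂ A] (mul : A → A → A) (P : Type)
    [NormedAddCommGroup P] [NormedSpace ℂ P] (aP : A → P → P) : Prop :=
  ∀ (Y : Type) [NormedAddCommGroup Y] [NormedSpace ℂ Y] [CompleteSpace Y] (aY : A → Y → Y),
    IsMod mul aY → ∀ φ : Y → P, IsMor aY aP φ → Adm φ →
    ∃ ψ : P → Y, IsMor aP aY ψ ∧ ∀ p, φ (ψ p) = p

/-- every closed left ideal for the product `mul` is projective -/
def Hered {A : Type} [NormedAddCommGroup A] [NormedSpace ℂ A] (mul : A → A → A) : Prop :=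
  ∀ L : Submodule ℂ A, IsClosed (L : Set A) → ∀ h : (∀ a, ∀ x ∈ L, mul a x ∈ L),
    Proj mul L (fun a x => ⟨mul a x.1, h a x.1 x.2⟩)

end Pool.Agent.H.MP_e07d6f_an.Defs
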