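import Mathlib
import Pool.Agent.H.MP_e07d6f_an.D
import Pool.Agent.H.MP_e07d6f_an.Defs

/-! Transfer to the stated definitions. -/

namespace Pool.Agent.H.MP_e07d6f_an

open Defs

lemma isMod_of {A X : Type} [NormedAddCommGroup A] [NormedSpace ℂ A] [NormedAddCommGroup X]
    [NormedSpace ℂ X] (mul : A → A → A) (aX : A →ₗ[ℂ] X →ₗ[ℂ] X)
    (h1 : ∀ a x, ‖aX a x‖ ≤ ‖a‖ * ‖x‖) (h2 : ∀ a b x, aX (mul a b) x = aX a (aX b x)) :
    IsMod mul (fun a x => aX a x) :=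
  ⟨(aX.mkContinuous₂ 1 (fun a x => by simpa using h1 a x)).isBoundedBilinearMap, h1, h2⟩

lemma both {A : Type} [NormedAddCommGroup A] [NormedSpace ℂ A] [CompleteSpace A]
    (m : A →ₗ[ℂ] A →ₗ[ℂ] A) (mul : A → A → A) (hm : ∀ a b, m a b = mul a b)
    (k1 : ∀ a x, ‖m a x‖ ≤ ‖a‖ * ‖x‖) (k2 : ∀ a b x, m (mul a b) x = m a (m b x))
    (hL : ¬ Lift m) : ¬ ProjR mul A mul ∧ ¬ Hered mul := by
  constructor
  · intro hP
    refine hL fun X _ _ _ aX h1 h2 σ hσ hρ => ?_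
    obtain ⟨ρ, hρ⟩ := hρ
    obtain ⟨ψ, ⟨h3, h4⟩, h5⟩ := hP X (fun a x => aX a x)
      (isMod_of mul aX h1 fun a b x => by rw [← hm, h2]) σ
      ⟨σ.isBoundedLinearMap, fun a x => by rw [← hm]; exact hσ a x⟩ ⟨ρ, ρ.isBoundedLinearMap, hρ⟩
    exact ⟨h3.toContinuousLinearMap, fun a p => by rw [hm]; exact h4 a p, h5⟩
  · intro hH
    refine hL fun X _ _ _ aX h1 h2 σ hσ hρ => ?_
    obtain ⟨ρ, hρ⟩ := hρ
    obtain ⟨ψ, ⟨h3, h4⟩, h5⟩ := hH ⊤ (by simp) (fun _ _ _ => Submodule.mem_top) X A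
      (fun a x => aX a x) (fun a x => m a x) (isMod_of mul aX h1 fun a b x => by rw [← hm, h2])
      (isMod_of mul m k1 k2) σ ⟨σ.isBoundedLinearMap, hσ⟩ ⟨ρ, ρ.isBoundedLinearMap, hρ⟩
      (⊤ : Submodule ℂ A).subtypeL
      ⟨(⊤ : Submodule ℂ A).subtypeL.isBoundedLinearMap, fun a p => (hm a p.1).symm⟩
    refine ⟨h3.toContinuousLinearMap.comp
      ((ContinuousLinearMap.id ℂ A).codRestrict ⊤ fun _ => Submodule.mem_top),
      fun a p => ?_, fun p => h5 _⟩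
    rw [hm]
    exact h4 a ⟨p, Submodule.mem_top⟩

lemma leftE {E : Type} [NormedAddCommGroup E] [NormedSpace ℂ E] [CompleteSpace E]
    (J : Submodule ℂ (E →L[ℂ] E)) (hJ : ∀ T, T ∈ J ↔ IsCompactOperator T) (mul : J → J → J)
    (hmul : ∀ a b, (mul a b).1 = a.1.comp b.1)
    (h : ∀ m : J →ₗ[ℂ] J →ₗ[ℂ] J, (∀ a b, (m a b).1 = a.1.comp b.1) → ¬ Lift (A := J) m) :
    ¬ ProjR mul J mul ∧ ¬ Hered mul := by
  have := completeK J hJ
  let m : J →ₗ[ℂ] J →ₗ[ℂ] J := LinearMap.mk₂ ℂ mul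
    (fun _ _ _ => Subtype.ext (by simp [hmul])) (fun _ _ _ => Subtype.ext (by simp [hmul]))
    (fun _ _ _ => Subtype.ext (by simp [hmul])) (fun _ _ _ => Subtype.ext (by simp [hmul]))
  refine both (A := J) m mul (fun _ _ => rfl) (fun a x => ?_) (fun a b x => Subtype.ext ?_)
    (h m hmul)
  · show ‖(mul a x).1‖ ≤ _
    rw [hmul]
    exact ContinuousLinearMap.opNorm_comp_le a.1 x.1
  · show (mul (mul a b) x).1 = (mul a (mul b x)).1
    simp only [hmul]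
    rfl

lemma rightE {E : Type} [NormedAddCommGroup E] [NormedSpace ℂ E] [CompleteSpace E]
    (J : Submodule ℂ (E →L[ℂ] E)) (hJ : ∀ T, T ∈ J ↔ IsCompactOperator T) (mul : J → J → J)
    (hmul : ∀ a b, (mul a b).1 = b.1.comp a.1)
    (h : ∀ m : J →ₗ[ℂ] J →ₗ[ℂ] J, (∀ a b, (m a b).1 = b.1.comp a.1) → ¬ Lift (A := J) m) :
    ¬ ProjR mul J mul ∧ ¬ Hered mul := by
  have := completeK J hJ
  let m : J →ₗ[ℂ] J →ₗ[ℂ] J := LinearMap.mk₂ ℂ mul
    (fun _ _ _ => Subtype.ext (by simp [hmul])) (fun _ _ _ => Subtype.ext (by simp [hmul]))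
    (fun _ _ _ => Subtype.ext (by simp [hmul])) (fun _ _ _ => Subtype.ext (by simp [hmul]))
  refine both (A := J) m mul (fun _ _ => rfl) (fun a x => ?_) (fun a b x => Subtype.ext ?_)
    (h m hmul)
  · show ‖(mul a x).1‖ ≤ _
    rw [hmul, mul_comm]
    exact ContinuousLinearMap.opNorm_comp_le x.1 a.1
  · show (mul (mul a b) x).1 = (mul a (mul b x)).1
    simp only [hmul]
    rfl

theorem finalL : ¬ ProjR cmul (K L1) cmul ∧ ¬ Hered (cmul : K L1 → K L1 → K L1) :=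
  leftE (compactOperator (RingHom.id ℂ) L1 L1) (fun _ => Iff.rfl) cmul (fun _ _ => rfl)
    (left (compactOperator (RingHom.id ℂ) L1 L1) (fun _ => Iff.rfl))

theorem finalR : ¬ ProjR omul (K JE) omul ∧ ¬ Hered (omul : K JE → K JE → K JE) :=
  rightE (compactOperator (RingHom.id ℂ) JE JE) (fun _ => Iff.rfl) omul
    (fun _ _ => rfl) (right (compactOperator (RingHom.id ℂ) JE JE) (fun _ => Iff.rfl))

end Pool.Agent.H.MP_e07d6f_an
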